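import Pool.Agent.helper24.IC.Spec

/-!
# Project IC, row HUL: injective hulls (the auxiliary lemmas are those of helper8, project ZI)
-/

set_option autoImplicit false

namespace Pool.Agent.IC

universe u

section

variable {R : Type u} [Ring R] {Q : Type u} [AddCommGroup Q] [Module R Q]

/-- `N` is an essential extension of `M₀` in `Q`. -/
def HUL_E (M₀ N : Submodule R Q) : Prop :=
  M₀ ≤ N ∧ ∀ x ∈ N, x ≠ 0 → ∃ r : R, r • x ≠ 0 ∧ r • x ∈ M₀

theorem HUL_maxE (M₀ : Submodule R Q) : ∃ N, Maximal (fun N => HUL_E M₀ N) N := by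
  have h0 : HUL_E M₀ M₀ := ⟨le_rfl, fun x hx h => ⟨1, by rwa [one_smul], by rwa [one_smul]⟩⟩
  obtain ⟨N, _, hN⟩ := zorn_le_nonempty₀ {N : Submodule R Q | HUL_E M₀ N} (by
    intro c hc hch y hy
    have hne : c.Nonempty := ⟨y, hy⟩
    have hd : DirectedOn (· ≤ ·) c := hch.directedOn
    refine ⟨sSup c, ⟨?_, ?_⟩, fun z hz => le_sSup hz⟩
    · exact (hc hy).1.trans (le_sSup hy)
    · intro x hx hx0
      obtain ⟨z, hz, hxz⟩ := (Submodule.mem_sSup_of_directed hne hd).1 hx
      exact (hc hz).2 x hxz hx0) M₀ h0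
  exact ⟨N, hN⟩

theorem HUL_maxC (N : Submodule R Q) : ∃ C, Maximal (fun C : Submodule R Q => C ⊓ N = ⊥) C := by
  obtain ⟨C, _, hC⟩ := zorn_le_nonempty₀ {C : Submodule R Q | C ⊓ N = ⊥} (by
    intro c hc hch y hy
    have hne : c.Nonempty := ⟨y, hy⟩
    have hd : DirectedOn (· ≤ ·) c := hch.directedOn
    refine ⟨sSup c, ?_, fun z hz => le_sSup hz⟩
    show sSup c ⊓ N = ⊥
    rw [Submodule.eq_bot_iff]
    intro x hx
    obtain ⟨hx1, hx2⟩ := Submodule.mem_inf.1 hx
    obtain ⟨z, hz, hxz⟩ := (Submodule.mem_sSup_of_directed hne hd).1 hx1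
    have h1 : z ⊓ N = ⊥ := hc hz
    have h2 : x ∈ z ⊓ N := Submodule.mem_inf.2 ⟨hxz, hx2⟩
    rw [h1] at h2
    exact (Submodule.mem_bot R).1 h2) ⊥ (by show (⊥ : Submodule R Q) ⊓ N = ⊥; exact bot_inf_eq _)
  exact ⟨C, hC⟩

/-- A maximal essential extension in an injective module is a retract. -/
theorem HUL_ret (hQ : Module.Injective R Q) (M₀ N : Submodule R Q)
    (hN : Maximal (fun N => HUL_E M₀ N) N) : ∃ p : Q →ₗ[R] N, ∀ x : N, p (x : Q) = x := by
  obtain ⟨C, hC⟩ := HUL_maxC N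
  have hCN : C ⊓ N = ⊥ := hC.1
  let π : N →ₗ[R] (Q ⧸ C) := C.mkQ.comp N.subtype
  have hπ : Function.Injective π := by
    rw [injective_iff_map_eq_zero]
    intro x hx
    have h1 : (x : Q) ∈ C := (Submodule.Quotient.mk_eq_zero C).1 hx
    have h2 : (x : Q) ∈ C ⊓ N := Submodule.mem_inf.2 ⟨h1, x.2⟩
    rw [hCN] at h2
    exact Subtype.ext ((Submodule.mem_bot R).1 h2)
  obtain ⟨h, hh⟩ := Module.Injective.out (R := R) (Q := Q) π hπ N.subtype
  -- essential image
  have hess : ∀ q : Q ⧸ C, q ≠ 0 → ∃ r : R, ∃ x : N, r • q ≠ 0 ∧ r • q = π x := by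
    intro q hq
    by_contra hcon
    push Not at hcon
    obtain ⟨y, rfl⟩ := Submodule.Quotient.mk_surjective C q
    have hy : y ∉ C := fun hy => hq ((Submodule.Quotient.mk_eq_zero C).2 hy)
    have hle : C ≤ C ⊔ Submodule.span R {y} := le_sup_left
    have hbot : (C ⊔ Submodule.span R {y}) ⊓ N = ⊥ := by
      rw [Submodule.eq_bot_iff]
      intro z hz
      obtain ⟨hz1, hz2⟩ := Submodule.mem_inf.1 hz
      obtain ⟨c, hc, w, hw, hcw⟩ := Submodule.mem_sup.1 hz1
      obtain ⟨r, rfl⟩ := Submodule.mem_span_singleton.1 hw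
      have e1 : r • (Submodule.Quotient.mk y : Q ⧸ C) = π ⟨z, hz2⟩ := by
        show r • (Submodule.Quotient.mk y : Q ⧸ C) = Submodule.Quotient.mk z
        rw [← Submodule.Quotient.mk_smul, Submodule.Quotient.eq]
        have : r • y - z = -c := by rw [← hcw]; abel
        rw [this]
        exact C.neg_mem hc
      by_cases h0 : r • (Submodule.Quotient.mk y : Q ⧸ C) = 0
      · rw [h0] at e1
        have := hπ ((e1.symm).trans (map_zero π).symm)
        exact congrArg Subtype.val this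
      · exact absurd e1 (hcon r ⟨z, hz2⟩ h0)
    have h3 := hC.2 (y := C ⊔ Submodule.span R {y}) hbot hle
    exact hy (h3 (Submodule.mem_sup_right (Submodule.mem_span_singleton_self y)))
  have hinj : Function.Injective h := by
    rw [injective_iff_map_eq_zero]
    intro q hq
    by_contra hq0
    obtain ⟨r, x, hr, hx⟩ := hess q hq0
    have h1 : h (π x) = 0 := by rw [← hx, map_smul, hq, smul_zero]
    rw [hh x] at h1
    have h2 : x = 0 := Subtype.ext h1
    apply hr
    rw [hx, h2, map_zero]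
  have hrange : HUL_E M₀ (LinearMap.range h) := by
    refine ⟨?_, ?_⟩
    · intro m hm
      exact ⟨π ⟨m, hN.1.1 hm⟩, hh ⟨m, hN.1.1 hm⟩⟩
    · rintro _ ⟨q, rfl⟩ hq0
      have hq : q ≠ 0 := fun h0 => hq0 (by rw [h0, map_zero])
      obtain ⟨r, x, hr, hx⟩ := hess q hq
      have h1 : r • h q = (x : Q) := by rw [← map_smul, hx, hh x]; rfl
      have hx0 : (x : Q) ≠ 0 := by
        intro h0
        have h2 : x = 0 := Subtype.ext h0
        apply hr
        rw [hx, h2, map_zero]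
      obtain ⟨r', hr', hr''⟩ := hN.1.2 (x : Q) x.2 hx0
      refine ⟨r' * r, ?_, ?_⟩
      · rw [mul_smul, h1]
        exact hr'
      · rw [mul_smul, h1]
        exact hr''
  have hle : LinearMap.range h ≤ N := by
    apply hN.2 hrange
    intro x hx
    exact ⟨π ⟨x, hx⟩, hh ⟨x, hx⟩⟩
  refine ⟨LinearMap.codRestrict N (h.comp C.mkQ) (fun c => hle ⟨C.mkQ c, rfl⟩), ?_⟩
  intro x
  apply Subtype.ext
  exact hh x

end

theorem HUL : HUL_stmt.{u} := by
  intro R _ M _ _
  obtain ⟨P⟩ := CategoryTheory.EnoughInjectives.presentation (ModuleCat.of R M)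
  have hinjQ : Module.Injective R P.J := by
    have := P.injective
    exact Module.injective_module_of_injective_object R P.J
  have hmono : Function.Injective P.f.hom := (ModuleCat.mono_iff_injective P.f).1 P.mono
  let ι : M →ₗ[R] P.J := P.f.hom
  have hι : Function.Injective ι := hmono
  obtain ⟨N, hN⟩ := HUL_maxE (LinearMap.range ι)
  obtain ⟨p, hp⟩ := HUL_ret hinjQ (LinearMap.range ι) N hN
  let f : M →ₗ[R] N := LinearMap.codRestrict N ι (fun m => hN.1.1 ⟨m, rfl⟩)
  have hf : Function.Injective f := by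
    intro a b hab
    exact hι (congrArg Subtype.val hab)
  have hess : ∀ A : Submodule R N, A ≠ ⊥ → A ⊓ LinearMap.range f ≠ ⊥ := by
    intro A hA hbot
    obtain ⟨x, hx, hx0⟩ := Submodule.exists_mem_ne_zero_of_ne_bot hA
    have hx1 : (x : P.J) ≠ 0 := fun h => hx0 (Subtype.ext h)
    obtain ⟨r, hr, m, hm⟩ := hN.1.2 (x : P.J) x.2 hx1
    have h1 : f m = r • x := Subtype.ext hm
    have h2 : r • x ∈ A ⊓ LinearMap.range f :=
      Submodule.mem_inf.2 ⟨A.smul_mem r hx, ⟨m, h1⟩⟩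
    rw [hbot] at h2
    have h3 : r • x = 0 := (Submodule.mem_bot R).1 h2
    exact hr (congrArg Subtype.val h3)
  refine ⟨N, inferInstance, inferInstance, f, hf, hess, ?_⟩
  intro N' _ _ g hg
  obtain ⟨h, hh⟩ := Module.Injective.out (R := R) (Q := P.J) g hg N.subtype
  refine ⟨p.comp h, ?_⟩
  apply LinearMap.ext
  intro x
  show p (h (g x)) = x
  rw [hh x]
  exact hp x

end Pool.Agent.IC
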